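import Pool.Agent.R357.DC.Basic

set_option autoImplicit false

open scoped ENNReal

namespace Pool.Agent.Results.MP_10145b_nt.BoundedCorrelations

/-- `D(a, h, w) = sup_{d ≥ 1, n ≥ 1} |∑_{k=1}^n w(k) a_1(d(k+h_1)) ⋯ a_ℓ(d(k+h_ℓ))|`, an element of `[0, ∞]` -/
noncomputable def Disc {ℓ : ℕ} (a : Fin ℓ → ℕ → ℂ) (h : Fin ℓ → ℕ) (w : ℕ → ℂ) : ℝ≥0∞ :=
  ⨆ (d : ℕ) (_ : 1 ≤ d) (n : ℕ) (_ : 1 ≤ n),
    ENNReal.ofReal ‖∑ k ∈ Finset.Icc 1 n, w k * ∏ j, a j (d * (k + h j))‖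

lemma sum_eq (n : ℕ) : ∑ k ∈ Finset.Icc 1 n, Pool.Agent.R357.DC.f (k + 1) * Pool.Agent.R357.DC.f (k + 2) *
    Pool.Agent.R357.DC.f (k + 3) * Pool.Agent.R357.DC.f (k + 6) = Pool.Agent.R357.DC.S n := by
  induction n with
  | zero => simp [Pool.Agent.R357.DC.S]
  | succ n ih =>
    rw [Finset.sum_Icc_succ_top (by omega), ih, Pool.Agent.R357.DC.S_succ]
    rfl

/-- There is a completely multiplicative `f` with values `±1` such that the correlations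
`∑_{k ≤ n} f(d(k+1)) f(d(k+2)) f(d(k+3)) f(d(k+6))` are bounded by `3` for all `d` and `n`. In particular it
is not true that `D(a, h, 1) = ∞` for all `ℓ ≥ 1`, all `ℓ`-tuples `a` of unimodular sequences and all
shift vectors `h`. -/
theorem result : (∃ f : ℕ → ℂ, (∀ m n : ℕ, 1 ≤ m → 1 ≤ n → f (m * n) = f m * f n) ∧
      (∀ n, f n = 1 ∨ f n = -1) ∧ Disc (fun _ : Fin 4 => f) ![1, 2, 3, 6] (fun _ => 1) ≤ 3) ∧
    ¬ (∀ (ℓ : ℕ) (a : Fin ℓ → ℕ → ℂ) (h : Fin ℓ → ℕ), 1 ≤ ℓ → (∀ j n, 1 ≤ n → ‖a j n‖ = 1) →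
      (∀ j, 1 ≤ h j) → Disc a h (fun _ => 1) = ⊤) := by
  have key : ∃ f : ℕ → ℂ, (∀ m n : ℕ, 1 ≤ m → 1 ≤ n → f (m * n) = f m * f n) ∧
      (∀ n, f n = 1 ∨ f n = -1) ∧ Disc (fun _ : Fin 4 => f) ![1, 2, 3, 6] (fun _ => 1) ≤ 3 := by
    refine ⟨fun n => ((Pool.Agent.R357.DC.f n : ℤ) : ℂ), ?_, ?_, ?_⟩
    · intro m n hm hn
      simp only
      rw [Pool.Agent.R357.DC.f_mul hm hn]
      push_cast; ring
    · intro n
      rcases Pool.Agent.R357.DC.f_pm n with h | h <;> simp [h]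
    · unfold Disc
      refine iSup_le fun d => iSup_le fun hd => iSup_le fun n => iSup_le fun hn => ?_
      have e : ∑ k ∈ Finset.Icc 1 n, (1:ℂ) * ∏ j : Fin 4, ((Pool.Agent.R357.DC.f
          (d * (k + (![1, 2, 3, 6] : Fin 4 → ℕ) j)) : ℤ) : ℂ) = ((Pool.Agent.R357.DC.S n : ℤ) : ℂ) := by
        rw [← sum_eq]
        push_cast
        refine Finset.sum_congr rfl fun k _ => ?_
        have hm : ∀ c : ℕ, 1 ≤ c → Pool.Agent.R357.DC.f (d * (k + c)) =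
            Pool.Agent.R357.DC.f d * Pool.Agent.R357.DC.f (k + c) :=
          fun c hc => Pool.Agent.R357.DC.f_mul hd (by omega)
        have hs : ((Pool.Agent.R357.DC.f d : ℤ) : ℂ) * ((Pool.Agent.R357.DC.f d : ℤ) : ℂ) = 1 := by
          exact_mod_cast Pool.Agent.R357.DC.f_sq d
        simp only [Fin.prod_univ_four, Matrix.cons_val_zero, Matrix.cons_val_one, Matrix.cons_val]
        rw [hm 1 le_rfl, hm 2 (by norm_num), hm 3 (by norm_num), hm 6 (by norm_num)]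
        push_cast
        linear_combination ((Pool.Agent.R357.DC.f (k + 1) : ℂ) * (Pool.Agent.R357.DC.f (k + 2)) *
          (Pool.Agent.R357.DC.f (k + 3)) * (Pool.Agent.R357.DC.f (k + 6)) *
          (((Pool.Agent.R357.DC.f d : ℤ) : ℂ) * ((Pool.Agent.R357.DC.f d : ℤ) : ℂ) + 1)) * hs
      rw [e]
      have hb := Pool.Agent.R357.DC.S_bound n
      rw [Complex.norm_intCast]
      have h3 : |((Pool.Agent.R357.DC.S n : ℤ) : ℝ)| ≤ 3 := by
        rw [abs_le]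
        constructor
        · exact_mod_cast hb.1
        · have : ((Pool.Agent.R357.DC.S n : ℤ) : ℝ) ≤ 0 := by exact_mod_cast hb.2
          linarith
      calc ENNReal.ofReal |((Pool.Agent.R357.DC.S n : ℤ) : ℝ)| ≤ ENNReal.ofReal 3 :=
            ENNReal.ofReal_le_ofReal h3
        _ = 3 := by norm_num
  refine ⟨key, ?_⟩
  obtain ⟨f, -, hf, hD⟩ := key
  intro H
  have h1 := H 4 (fun _ => f) ![1, 2, 3, 6] (by norm_num) (by
    intro j n _
    rcases hf n with h | h <;> simp [h]) (by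
    intro j
    fin_cases j <;> simp)
  rw [h1] at hD
  exact absurd hD (by simp)

end Pool.Agent.Results.MP_10145b_nt.BoundedCorrelations
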